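import Pool.Agent.Y782.FF.Stm

/-!
# The contradiction at a level for general weights (helper905; adapted from `TH285.Ff.defeat`)
-/

set_option autoImplicit false

namespace Pool.Agent.Y905.FF

open MeasureTheory Finset Filter Pool.Agent.TH285.Ff Pool.Agent.Y782.FF
open scoped ENNReal Topology

theorem marg_nonneg {n : ℕ} {Q : (Fin n → Bool) → ℝ} (hQ : ∀ w, 0 ≤ Q w)
    (z : Fin n → Option Bool) : 0 ≤ marg Q z := by
  classical
  refine Finset.sum_nonneg fun w _ => ?_
  split_ifs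
  · exact hQ w
  · exact le_rfl

theorem deft (hGOOD : S_GOOD) : S_DEF := by
  classical
  intro ι Qf hQf0 hQf1 P m hG h lam ρ ε hh hh1 hlam0 hlam1 hρ hε hε1 hnum hx1 hx2 task htask hD
    hclose Zb hZm hZs hZl hdom hZf
  obtain ⟨i, C, hC1, hC⟩ := hdom
  have hC0 : 0 < C := by linarith
  set θ := th (P.al m) with hθ
  have hθ0 : 0 < θ := th_pos (P.al m)
  have hθ1 : θ < 1 := th_lt_one (P.al m)
  obtain ⟨c, hc1, hc2⟩ := exists_code P m Zb hZm hZf (δ := ε / 8) (by positivity)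
  have hcode : ∀ᵐ ω ∂mu, ∀ k : ℤ, ∀ b, c.2 (cw P m c.1 ω k) = some b → Zb ω k = b := by
    filter_upwards [mu_ae_sh hc1, hZs] with ω h1 h2 k b hb
    have h3 := h1 k b
    rw [cw_sh, zero_add] at h3
    rw [← h2 k]
    exact h3 hb
  -- numeric data
  set g0 := (1 / 2 : ℝ) ^ (2 ^ (P.al m + 1) + 1) with hg0
  have hg0p : 0 < g0 := by positivity
  set s := θ / (1 + θ) / 2 with hs
  have hs0 : 0 < s := by positivity
  set A := (1 - θ ^ 2) * lam ^ 3 with hA
  have hA0 : 0 < A := by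
    have : 0 < 1 - θ ^ 2 := by nlinarith
    positivity
  have h1h : 0 ≤ 1 - h := by linarith
  have hr0 : 0 ≤ (1 - h) ^ s / A := div_nonneg (Real.rpow_nonneg h1h _) hA0.le
  have hr1 : (1 - h) ^ s / A < 1 := (div_lt_one hA0).2 hnum
  have htend := tendsto_pow_atTop_nhds_zero_of_lt_one hr0 hr1
  have hev := htend.eventually (gt_mem_nhds (show (0 : ℝ) < g0 ^ 2 / (4 * C) by positivity))
  obtain ⟨N1, hN1⟩ := eventually_atTop.1 hev
  obtain ⟨N2, hN2⟩ := exists_nat_ge ((4 * (c.1 : ℝ)) / ε)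
  obtain ⟨n, hn, htn⟩ := htask (c, i) (max (max N1 N2) (max (P.nn m) 1))
  have hnN1 : N1 ≤ n := le_trans (le_trans (le_max_left _ _) (le_max_left _ _)) hn
  have hnN2 : N2 ≤ n := le_trans (le_trans (le_max_right _ _) (le_max_left _ _)) hn
  have hnnn : P.nn m ≤ n := le_trans (le_trans (le_max_left _ _) (le_max_right _ _)) hn
  have hn1 : 1 ≤ n := le_trans (le_trans (le_max_right _ _) (le_max_right _ _)) hn
  have hn2 : 2 * (c.1 : ℝ) ≤ ε * n / 2 := by
    have h1 : (4 * (c.1 : ℝ)) / ε ≤ n := le_trans hN2 (by exact_mod_cast hnN2)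
    rw [div_le_iff₀ hε] at h1
    linarith
  have hwg := wt_good_lower P m n hn1 hρ hε c hn2 hx1 hclose hc2
  have hex : ∃ z, GoodT' (P.al m) lam ε c (Qf i) n z :=
    hGOOD (P.al m) n c lam ε hlam0 (Qf i) (hQf0 i) (hQf1 i) hx2 hwg
  -- the target
  have hDn : ∃ z, GoodT' (P.al m) lam ε c (Qf i) n z ∧ P.D m n = {u | Kw c u = z} := by
    have h1 : P.D m n = tgt' Qf (P.al m) lam ε task n := by rw [hD]
    have h2 : ∃ z, GoodT' (P.al m) lam ε (task n).1 (Qf (task n).2) n z := by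
      rw [htn]
      exact hex
    refine ⟨h2.choose, ?_, ?_⟩
    · have h3 := h2.choose_spec
      have e1 : (task n).1 = c := by rw [htn]
      have e2 : (task n).2 = i := by rw [htn]
      rw [← e1, ← e2]
      exact h3
    · rw [h1]
      unfold tgt'
      rw [dif_pos h2]
      have e1 : (task n).1 = c := by rw [htn]
      conv_rhs => rw [← e1]
  obtain ⟨z, ⟨hz1, hz2⟩, hDz⟩ := hDn
  obtain ⟨Q, hQ⟩ : ∃ Q : ℝ, Q = mu.real {ω | ∀ k : Fin n, ∀ b, z k = some b →
    Zb ω ((k : ℕ) : ℤ) = b} := ⟨_, rfl⟩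
  -- upper bound for the probability of the target
  have hup : mu.real {ω | word P m n ω ∈ P.D m n} ≤ Q := by
    rw [hQ]
    have hae : ∀ᵐ ω ∂mu, ω ∈ {ω | word P m n ω ∈ P.D m n} →
        ω ∈ {ω | ∀ k : Fin n, ∀ b, z k = some b → Zb ω ((k : ℕ) : ℤ) = b} := by
      filter_upwards [hcode] with ω hω hmem k b hb
      have h1 : word P m n ω ∈ P.D m n := hmem
      rw [hDz] at h1
      have h2 : Kw c (word P m n ω) = z := h1
      rw [← h2] at hb
      unfold Kw at hb
      split_ifs at hb with h3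
      apply hω ((k : ℕ) : ℤ) b
      rw [← hb]
      refine congrArg c.2 (funext fun j => ?_)
      unfold cw word
      congr 3
      have : (((k : ℕ) - c.1 + (j : ℕ) : ℕ) : ℤ) = (k : ℕ) - c.1 + (j : ℕ) := by
        push_cast [Nat.cast_sub h3.1]; ring
      simp only [this]
      ring
    exact ENNReal.toReal_mono (measure_ne_top _ _) (measure_mono_ae hae)
  have hlow := lower_target P (m := m) (n := n) hG hnnn
  rw [← hθ] at hlow
  have hall := le_trans hlow hup
  have hwpos : 0 < wt (nu (P.al m)) (P.D m n) := by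
    rw [hDz]
    refine lt_of_le_of_lt ?_ hz2
    have := marg_nonneg (hQf0 i n) z
    positivity
  have hQ0 : 0 < Q := by
    refine lt_of_lt_of_le ?_ hall
    have h8 : 0 < 1 - θ ^ 2 := by nlinarith
    have h9 : 0 < wt (nu (P.al m)) (P.D m n) ^ (1 / (1 + θ)) := Real.rpow_pos_of_pos hwpos _
    positivity
  -- comparison of the masses
  have hwtD : Q * lam ^ (3 * n) / (4 * C) ≤ wt (nu (P.al m)) (P.D m n) := by
    rw [hDz]
    refine le_trans ?_ hz2.le
    have h1 := hC n z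
    rw [← hQ] at h1
    have h2 : Q * lam ^ (3 * n) / (4 * C) = (Q * lam ^ n) * (lam ^ (2 * n) / (4 * C)) := by
      rw [show 3 * n = n + 2 * n by ring, pow_add]; ring
    have h3 : marg (Qf i n) z * lam ^ (2 * n) / 4
        = (C * marg (Qf i n) z) * (lam ^ (2 * n) / (4 * C)) := by
      field_simp
    rw [h2, h3]
    exact mul_le_mul_of_nonneg_right h1 (by positivity)
  set t := 1 / (1 + θ) with ht
  have ht0 : 0 < t := by positivity
  have ht1 : t ≤ 1 := by
    rw [ht, div_le_one (by positivity)]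
    linarith
  have hl1 : 0 < lam ^ (3 * n) / (4 * C) := by positivity
  have hl2 : lam ^ (3 * n) / (4 * C) ≤ 1 := by
    have h5 : lam ^ (3 * n) ≤ 1 := pow_le_one₀ hlam0.le hlam1.le
    rw [div_le_one (by positivity)]
    linarith
  have h6 : Q ^ t * (lam ^ (3 * n) / (4 * C)) ≤ wt (nu (P.al m)) (P.D m n) ^ t := by
    calc Q ^ t * (lam ^ (3 * n) / (4 * C)) ≤ Q ^ t * (lam ^ (3 * n) / (4 * C)) ^ t := by
          apply mul_le_mul_of_nonneg_left _ (Real.rpow_nonneg hQ0.le _)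
          calc lam ^ (3 * n) / (4 * C) = (lam ^ (3 * n) / (4 * C)) ^ (1 : ℝ) := (Real.rpow_one _).symm
            _ ≤ _ := Real.rpow_le_rpow_of_exponent_ge hl1 hl2 ht1
      _ = (Q * lam ^ (3 * n) / (4 * C)) ^ t := by
          rw [← Real.mul_rpow hQ0.le hl1.le]
          congr 1
          ring
      _ ≤ _ := Real.rpow_le_rpow (by positivity) hwtD ht0.le
  have h7 : g0 ^ 2 * ((1 - θ ^ 2) ^ n * (Q ^ t * (lam ^ (3 * n) / (4 * C)))) ≤ Q := by
    refine le_trans ?_ hall
    have h8 : 0 < 1 - θ ^ 2 := by nlinarith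
    apply mul_le_mul_of_nonneg_left _ (by positivity)
    exact mul_le_mul_of_nonneg_left h6 (by positivity)
  have h8 : g0 ^ 2 / (4 * C) * A ^ n * Q ^ t ≤ Q := by
    calc g0 ^ 2 / (4 * C) * A ^ n * Q ^ t = g0 ^ 2 * ((1 - θ ^ 2) ^ n * (Q ^ t * (lam ^ (3 * n) / (4 * C)))) := by
          rw [hA, mul_pow, ← pow_mul]; ring
      _ ≤ Q := h7
  have h9 : Q = Q ^ (1 - t) * Q ^ t := by
    rw [← Real.rpow_add hQ0]
    simp
  have h10 : g0 ^ 2 / (4 * C) * A ^ n ≤ Q ^ (1 - t) := by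
    have h11 : 0 < Q ^ t := Real.rpow_pos_of_pos hQ0 _
    have h12 : g0 ^ 2 / (4 * C) * A ^ n * Q ^ t ≤ Q ^ (1 - t) * Q ^ t := by
      rw [← h9]; exact h8
    exact le_of_mul_le_mul_right h12 h11
  -- upper bound for Q
  have h11 : Q ≤ (1 - h) ^ ((n : ℝ) / 2) := by
    have h12 := hZl n z
    rw [← hQ] at h12
    refine le_trans h12 ?_
    rw [← Real.rpow_natCast (1 - h)]
    have h13 : (n : ℝ) / 2 ≤ ((n - stars z : ℕ) : ℝ) := by
      have h14 : (stars z : ℝ) ≤ ε * n := by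
        calc (stars z : ℝ) ≤ (⌊ε * n⌋₊ : ℝ) := by exact_mod_cast hz1
          _ ≤ ε * n := Nat.floor_le (by positivity)
      have h15 : (n : ℝ) - stars z ≤ ((n - stars z : ℕ) : ℝ) := by
        rw [sub_le_iff_le_add]
        have : n ≤ n - stars z + stars z := by omega
        exact_mod_cast this
      have h16 : ε * n ≤ 1 / 2 * n := mul_le_mul_of_nonneg_right hε1 (Nat.cast_nonneg n)
      linarith
    have h1h' : 0 < 1 - h := by linarith
    exact Real.rpow_le_rpow_of_exponent_ge h1h' (by linarith) h13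
  have h12 : Q ^ (1 - t) ≤ ((1 - h) ^ s) ^ n := by
    have e1 : 1 - t = θ / (1 + θ) := by
      rw [ht]
      field_simp
      ring
    have h13 : 0 ≤ 1 - t := by linarith
    calc Q ^ (1 - t) ≤ ((1 - h) ^ ((n : ℝ) / 2)) ^ (1 - t) := Real.rpow_le_rpow hQ0.le h11 h13
      _ = ((1 - h) ^ s) ^ n := by
        rw [← Real.rpow_mul h1h, ← Real.rpow_natCast ((1 - h) ^ s), ← Real.rpow_mul h1h, e1, hs]
        congr 1
        ring
  have h13 := hN1 n hnN1
  rw [div_pow, div_lt_iff₀ (by positivity)] at h13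
  linarith

end Pool.Agent.Y905.FF

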